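import Pool.Agent.Lib.MP_9df71a_co.DenomAsym
import Pool.Agent.Lib.MP_9df71a_co.Main

open Filter Topology N0a8789b9 Pool.Agent.MP9df71a Pool.Agent.MP9df71a.Denom

/-- Denominators in tilings of the `n`-cube by cubes.

1. Let `0 < θ < 1/3` and `0 < δ < 1`. For all large `n` and all primes `q`: a tiling of the unit `n`-cube
   by `k` cubes in which some side is a rational number with denominator divisible by `q` has
   `k > ((1 - δ) min (q, n^θ))^n`.
2. If `0 < θ < 1/3` and `p = n + 1` is a large prime, then in every tiling with `k ≤ n^(θ n)` cubes all sides are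
   rational with denominators prime to `p`, and if `k` is not `1` modulo `p`, some side has
   numerator divisible by `p`.
3. If `log c(n) / (n log n)` converges and `0 < θ < 1/3`, then for all large `n` such that `p = n + 1` is a prime,
   there is a tiling with at most `n^(θ n)` cubes, all sides being rational with denominators
   prime to `p`, such that the numerator of some side is divisible by `p`. -/
theorem Pool.Agent.Results.MP_9df71a_co.Denominators.result :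
    (∀ θ δ : ℝ, 0 < θ → θ < 1 / 3 → 0 < δ → δ < 1 →
      ∃ n₀ : ℕ, ∀ n : ℕ, n₀ ≤ n → ∀ (k : ℕ) (tiles : Fin k → Cube n), IsTiling tiles →
        ∀ (i : Fin k) (r : ℚ) (q : ℕ), (tiles i).side = r → q.Prime → q ∣ r.den →
          ((1 - δ) * min (q : ℝ) ((n : ℝ) ^ θ)) ^ n < k) ∧
    (∀ θ : ℝ, 0 < θ → θ < 1 / 3 →
      ∃ n₀ : ℕ, ∀ n : ℕ, n₀ ≤ n → (n + 1).Prime →
        ∀ (k : ℕ) (tiles : Fin k → Cube n), IsTiling tiles → (k : ℝ) ≤ (n : ℝ) ^ (θ * n) →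
          (∀ i, ∃ r : ℚ, (tiles i).side = r ∧ ¬ (n + 1) ∣ r.den) ∧
          (¬ k ≡ 1 [MOD n + 1] →
            ∃ i, ∃ r : ℚ, (tiles i).side = r ∧ ((n + 1 : ℕ) : ℤ) ∣ r.num)) ∧
    (∀ c : ℕ → ℕ, (∀ n, 0 < n → IsCutoff n (c n)) →
      (∃ γ : ℝ, Tendsto (fun n : ℕ => Real.log (c n) / (n * Real.log n)) atTop (𝓝 γ)) →
      ∀ θ : ℝ, 0 < θ → θ < 1 / 3 →
        ∃ n₀ : ℕ, ∀ n : ℕ, n₀ ≤ n → (n + 1).Prime →
          ∃ (k : ℕ) (tiles : Fin k → Cube n), IsTiling tiles ∧ (k : ℝ) ≤ (n : ℝ) ^ (θ * n) ∧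
            (∀ i, ∃ r : ℚ, (tiles i).side = r ∧ ¬ (n + 1) ∣ r.den) ∧
            ∃ i, ∃ r : ℚ, (tiles i).side = r ∧ ((n + 1 : ℕ) : ℤ) ∣ r.num) := by
  refine ⟨fun θ δ h1 h2 h3 h4 => denom_asym h1 h2 h3 h4, fun θ h1 h2 => prime_case h1 h2, ?_⟩
  rintro c hc ⟨γ, hγ⟩ θ hθ hθ3
  have hfreq : ∀ ε : ℝ, 0 < ε → ∃ᶠ n : ℕ in atTop,
      Real.log (c n) / (n * Real.log n) ≤ ε := by
    intro ε hε
    rw [frequently_atTop]
    intro N
    obtain ⟨n, hn, h⟩ := exists_small_cutoff hε (N + 1)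
    refine ⟨n, by omega, ?_⟩
    have hn1 : (1 : ℝ) < n := by exact_mod_cast (by omega : 1 < n)
    have hpos : 0 < (n : ℝ) * Real.log n := mul_pos (by linarith) (Real.log_pos hn1)
    rw [div_le_iff₀ hpos]
    exact h (c n) (hc n (by omega))
  have hγ0 : γ ≤ 0 := by
    apply le_of_forall_pos_le_add
    intro ε hε
    rw [zero_add]
    by_contra hcon
    push Not at hcon
    have h1 := hγ.eventually (lt_mem_nhds hcon)
    obtain ⟨n, hn1, hn2⟩ := ((hfreq ε hε).and_eventually h1).exists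
    linarith
  have hθ2 : γ < θ / 2 := by linarith
  obtain ⟨n₁, hn₁⟩ := eventually_atTop.1 (hγ.eventually (gt_mem_nhds hθ2))
  obtain ⟨n₂, hn₂⟩ := prime_case hθ hθ3
  have hlim : Tendsto (fun n : ℕ => (n : ℝ) ^ (θ / 2)) atTop atTop :=
    (tendsto_rpow_atTop (by linarith)).comp tendsto_natCast_atTop_atTop
  obtain ⟨n₃, hn₃⟩ := eventually_atTop.1 (hlim.eventually_ge_atTop 2)
  refine ⟨n₁ + n₂ + n₃ + 2, fun n hn hp => ?_⟩
  have hn1 : (1 : ℝ) < n := by exact_mod_cast (by omega : 1 < n)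
  have hn0 : (0 : ℝ) < n := by linarith
  have hpos : 0 < (n : ℝ) * Real.log n := mul_pos hn0 (Real.log_pos hn1)
  have hcn := hc n (by omega)
  have h1 := hn₁ n (by omega)
  rw [div_lt_iff₀ hpos] at h1
  have h2 : (c n : ℝ) ≤ (n : ℝ) ^ (θ / 2 * n) := by
    rcases Nat.eq_zero_or_pos (c n) with h0 | h0
    · rw [h0]
      have : (0 : ℝ) ≤ (n : ℝ) ^ (θ / 2 * n) := by positivity
      simpa using this
    · have h0' : (0 : ℝ) < c n := by exact_mod_cast h0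
      rw [← Real.log_le_log_iff h0' (by positivity), Real.log_rpow hn0]
      linarith
  have h3 : (2 : ℝ) ≤ (n : ℝ) ^ (θ / 2 * n) := by
    calc (2 : ℝ) ≤ (n : ℝ) ^ (θ / 2) := hn₃ n (by omega)
      _ ≤ (n : ℝ) ^ (θ / 2 * n) := by
          apply Real.rpow_le_rpow_of_exponent_le hn1.le
          nlinarith
  have h4 : (c n : ℝ) + 1 ≤ (n : ℝ) ^ (θ * n) := by
    have h5 : (n : ℝ) ^ (θ * n) = (n : ℝ) ^ (θ / 2 * n) * (n : ℝ) ^ (θ / 2 * n) := by
      rw [← Real.rpow_add hn0]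
      congr 1
      ring
    rw [h5]
    nlinarith
  -- one of `c n`, `c n + 1` is not `1` modulo `n + 1`
  obtain ⟨k, hk1, hk2, hk3⟩ : ∃ k : ℕ, c n ≤ k ∧ k ≤ c n + 1 ∧ ¬ k ≡ 1 [MOD n + 1] := by
    by_cases hmod : c n ≡ 1 [MOD n + 1]
    · refine ⟨c n + 1, by omega, le_rfl, ?_⟩
      intro h3
      have h4 : c n + 1 ≡ 1 + 1 [MOD n + 1] := Nat.ModEq.add_right 1 hmod
      have h5 := h3.symm.trans h4
      have h6 : (1 : ℕ) % (n + 1) = (1 + 1) % (n + 1) := h5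
      rw [Nat.mod_eq_of_lt (by omega), Nat.mod_eq_of_lt (by omega)] at h6
      omega
    · exact ⟨c n, le_rfl, by omega, hmod⟩
  obtain ⟨tiles, ht⟩ := hcn.1 k hk1
  have hk4 : (k : ℝ) ≤ (n : ℝ) ^ (θ * n) := by
    have : (k : ℝ) ≤ (c n : ℝ) + 1 := by exact_mod_cast hk2
    linarith
  obtain ⟨h6, h7⟩ := hn₂ n (by omega) hp k tiles ht hk4
  exact ⟨k, tiles, ht, hk4, h6, h7 hk3⟩
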