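import Pool.Agent.Lib.MP_9df71a_co.FewReal
import Pool.Agent.Lib.MP_9df71a_co.FewUpper2

open Filter Topology N0a8789b9 Pool.Agent.MP9df71a Pool.Agent.MP9df71a.Few

/-- Decompositions of the unit `n`-cube into cubes with few different side lengths.

1. If a decomposition of the unit `n`-cube, `n ≥ 2`, into `k` cubes has at most `R` different side
   lengths and the numerator of one of them is divisible by the prime `p`, then
   `p ^ (n - R) ≤ k ^ 4`.
2. For all large `n` such that `n + 1` is prime: a decomposition into `k` cubes with at most `R`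
   different side lengths and `k` not `1` modulo `n + 1` has `(n + 1) ^ (n - R) ≤ k ^ 4`.
3. Let `n ^ δ ≤ R n ≤ (1 - δ) n` for large `n`, and let `c n` be the threshold for decompositions
   with at most `R n` different side lengths (which exists whenever `R n ≥ 3`). Then
   `log (c n) / (n log n)` has lower limit `0`, is at least `η` for every `η < δ / 4` and all large
   `n` with `n + 1` prime, and so has no limit. -/
theorem Pool.Agent.Results.MP_9df71a_co.FewSides.result :
    (∀ (n k R p : ℕ) (tiles : Fin k → Cube n), 2 ≤ n → IsTiling tiles →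
      (Set.range fun i => (tiles i).side).ncard ≤ R → p.Prime →
      (∃ i, ∃ r : ℚ, (tiles i).side = r ∧ (p : ℤ) ∣ r.num) → p ^ (n - R) ≤ k ^ 4) ∧
    (∃ n₀ : ℕ, ∀ n : ℕ, n₀ ≤ n → (n + 1).Prime → ∀ R k : ℕ, FewAdmissible n R k →
      ¬ k ≡ 1 [MOD n + 1] → (n + 1) ^ (n - R) ≤ k ^ 4) ∧
    (∀ n R : ℕ, 0 < n → 3 ≤ R → ∃ c, IsFewCutoff n R c) ∧
    ∀ (δ : ℝ) (R c : ℕ → ℕ), 0 < δ →
      (∀ᶠ n : ℕ in atTop, (n : ℝ) ^ δ ≤ R n ∧ (R n : ℝ) ≤ (1 - δ) * n) →
      (∀ᶠ n : ℕ in atTop, IsFewCutoff n (R n) (c n)) →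
      (∀ ε : ℝ, 0 < ε → ∃ᶠ n : ℕ in atTop, Real.log (c n) / (n * Real.log n) ≤ ε) ∧
      liminf (fun n : ℕ => Real.log (c n) / (n * Real.log n)) atTop = 0 ∧
      (∀ η : ℝ, η < δ / 4 → ∃ n₀ : ℕ, ∀ n : ℕ, n₀ ≤ n → (n + 1).Prime →
        η ≤ Real.log (c n) / (n * Real.log n)) ∧
      ¬ ∃ γ : ℝ, Tendsto (fun n : ℕ => Real.log (c n) / (n * Real.log n)) atTop (𝓝 γ) := by
  classical
  have hcard : ∀ (n k : ℕ) (tiles : Fin k → Cube n),
      (Finset.univ.image fun i => (tiles i).side).card =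
        (Set.range fun i => (tiles i).side).ncard := by
    intro n k tiles
    rw [← Set.ncard_coe_finset]
    congr 1
    simp
  refine ⟨?_, ?_, fun n R hn hR => exists_fewCutoff n R hn hR, ?_⟩
  · rintro n k R p tiles hn ht hR hp ⟨i, r, hr, hpr⟩
    have h1 := few_pow_four hn ht hp hr hpr
    rw [hcard] at h1
    exact (Nat.pow_le_pow_right hp.pos (by omega)).trans h1
  · obtain ⟨n₀, hn₀⟩ := few_prime
    refine ⟨n₀, fun n hn hp R k ⟨tiles, ht, hR⟩ hk => ?_⟩
    have h1 := hn₀ n hn hp k tiles ht hk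
    rw [hcard] at h1
    exact (Nat.pow_le_pow_right (by omega) (by omega)).trans h1
  · intro δ R c hδ hRev hcev
    obtain ⟨n₁, hn₁⟩ := eventually_atTop.1 hRev
    obtain ⟨n₂, hn₂⟩ := eventually_atTop.1 hcev
    have hnn : ∀ n : ℕ, 0 ≤ Real.log (c n) / (n * Real.log n) := fun n =>
      div_nonneg (Real.log_natCast_nonneg _)
        (mul_nonneg (Nat.cast_nonneg _) (Real.log_natCast_nonneg _))
    have hfreq : ∀ ε : ℝ, 0 < ε → ∃ᶠ n : ℕ in atTop,
        Real.log (c n) / (n * Real.log n) ≤ ε := by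
      intro ε hε
      rw [frequently_atTop]
      intro N
      obtain ⟨n, hn, h⟩ := exists_small_fewCutoff hε hδ (N + n₁ + n₂ + 1)
      refine ⟨n, by omega, ?_⟩
      have hn1 : (1 : ℝ) < n := by exact_mod_cast (by omega : 1 < n)
      have hpos : 0 < (n : ℝ) * Real.log n := mul_pos (by linarith) (Real.log_pos hn1)
      rw [div_le_iff₀ hpos]
      exact h (R n) (c n) (hn₁ n (by omega)).1 (hn₂ n (by omega))
    have hbdd : IsBoundedUnder (· ≥ ·) atTop
        (fun n : ℕ => Real.log (c n) / (n * Real.log n)) :=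
      ⟨0, by rw [eventually_map]; exact Eventually.of_forall hnn⟩
    have hlim : liminf (fun n : ℕ => Real.log (c n) / (n * Real.log n)) atTop = 0 := by
      apply le_antisymm
      · apply le_of_forall_pos_le_add
        intro ε hε
        rw [zero_add]
        exact liminf_le_of_frequently_le (hfreq ε hε) hbdd
      · exact le_liminf_of_le (IsCoboundedUnder.of_frequently_le (hfreq 1 one_pos))
          (Eventually.of_forall hnn)
    have hlow : ∀ η : ℝ, η < δ / 4 → ∃ n₀ : ℕ, ∀ n : ℕ, n₀ ≤ n → (n + 1).Prime →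
        η ≤ Real.log (c n) / (n * Real.log n) := by
      intro η₀ hη₀
      -- we may assume that `η` is nonnegative
      obtain ⟨η, hη0, hηη, hη⟩ : ∃ η : ℝ, 0 ≤ η ∧ η₀ ≤ η ∧ η < δ / 4 :=
        ⟨max η₀ 0, le_max_right _ _, le_max_left _ _, max_lt hη₀ (by linarith)⟩
      obtain ⟨n₀, h0⟩ := few_prime
      have hlim2 : Tendsto (fun n : ℕ => (n : ℝ) ^ (δ / 4 - η)) atTop atTop :=
        (tendsto_rpow_atTop (by linarith)).comp tendsto_natCast_atTop_atTop
      obtain ⟨n₃, hn₃⟩ := eventually_atTop.1 (hlim2.eventually_ge_atTop 2)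
      refine ⟨n₀ + n₁ + n₂ + n₃ + 2, fun n hn hp => hηη.trans ?_⟩
      have hn1 : (1 : ℝ) < n := by exact_mod_cast (by omega : 1 < n)
      have hn0 : (0 : ℝ) < n := by linarith
      have hlog : 0 < Real.log n := Real.log_pos hn1
      have hpos : 0 < (n : ℝ) * Real.log n := mul_pos hn0 hlog
      have hRn := (hn₁ n (by omega)).2
      have hcn := hn₂ n (by omega)
      -- the inequality for one of `c n`, `c n + 1`
      have key : ∀ k : ℕ, c n ≤ k → k ≤ c n + 1 → ¬ k ≡ 1 [MOD n + 1] →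
          (n : ℝ) ^ (δ / 4 * n) ≤ (c n : ℝ) + 1 := by
        intro k hk1 hk2 hk3
        obtain ⟨tiles, ht, hR⟩ := hcn.1 k hk1
        have h1 := h0 n (by omega) hp k tiles ht hk3
        rw [hcard] at h1
        have h2 : (n + 1) ^ (n - R n) ≤ (c n + 1) ^ 4 :=
          calc (n + 1) ^ (n - R n)
              ≤ (n + 1) ^ (n - (Set.range fun i => (tiles i).side).ncard) :=
                Nat.pow_le_pow_right (by omega) (by omega)
            _ ≤ k ^ 4 := h1
            _ ≤ (c n + 1) ^ 4 := Nat.pow_le_pow_left hk2 4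
        have hRn' : R n ≤ n := by
          have : (R n : ℝ) ≤ n := by nlinarith
          exact_mod_cast this
        have h3 : δ * n ≤ ((n - R n : ℕ) : ℝ) := by
          rw [Nat.cast_sub hRn']
          linarith
        have h4 : ((n : ℝ) ^ (δ / 4 * n)) ^ 4 ≤ ((c n : ℝ) + 1) ^ 4 := by
          calc ((n : ℝ) ^ (δ / 4 * n)) ^ 4 = (n : ℝ) ^ (δ * n) := by
                rw [← Real.rpow_natCast, ← Real.rpow_mul hn0.le]
                congr 1
                push_cast
                ring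
            _ ≤ (n : ℝ) ^ ((n - R n : ℕ) : ℝ) :=
                Real.rpow_le_rpow_of_exponent_le hn1.le h3
            _ = (n : ℝ) ^ (n - R n) := Real.rpow_natCast _ _
            _ ≤ ((n : ℝ) + 1) ^ (n - R n) := pow_le_pow_left₀ hn0.le (by linarith) _
            _ ≤ ((c n : ℝ) + 1) ^ 4 := by exact_mod_cast h2
        exact le_of_pow_le_pow_left₀ (by norm_num) (by positivity) h4
      have h1 : (n : ℝ) ^ (δ / 4 * n) ≤ (c n : ℝ) + 1 := by
        by_cases hmod : c n ≡ 1 [MOD n + 1]
        · refine key (c n + 1) (by omega) le_rfl ?_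
          intro h3
          have h4 : c n + 1 ≡ 1 + 1 [MOD n + 1] := Nat.ModEq.add_right 1 hmod
          have h5 := h3.symm.trans h4
          have h6 : (1 : ℕ) % (n + 1) = (1 + 1) % (n + 1) := h5
          rw [Nat.mod_eq_of_lt (by omega), Nat.mod_eq_of_lt (by omega)] at h6
          omega
        · exact key (c n) le_rfl (by omega) hmod
      have h2 : (n : ℝ) ^ (η * n) ≤ c n := by
        have h3 : (n : ℝ) ^ (δ / 4 * n) = (n : ℝ) ^ (η * n) * (n : ℝ) ^ ((δ / 4 - η) * n) := by
          rw [← Real.rpow_add hn0]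
          congr 1
          ring
        have h4 : 2 ≤ (n : ℝ) ^ ((δ / 4 - η) * n) := by
          calc (2 : ℝ) ≤ (n : ℝ) ^ (δ / 4 - η) := hn₃ n (by omega)
            _ ≤ (n : ℝ) ^ ((δ / 4 - η) * n) := by
                apply Real.rpow_le_rpow_of_exponent_le hn1.le
                nlinarith
        have h5 : 1 ≤ (n : ℝ) ^ (η * n) := Real.one_le_rpow hn1.le (by positivity)
        nlinarith
      rw [le_div_iff₀ hpos]
      have h3 := Real.log_le_log (by positivity) h2
      rw [Real.log_rpow hn0] at h3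
      linarith
    refine ⟨hfreq, hlim, hlow, ?_⟩
    rintro ⟨γ, hγ⟩
    have hγ0 : γ = 0 := by rw [← hγ.liminf_eq, hlim]
    obtain ⟨n₀, h0⟩ := hlow (δ / 8) (by linarith)
    have hev := (tendsto_order.mp hγ).2 (δ / 8) (by rw [hγ0]; linarith)
    obtain ⟨N, hN⟩ := eventually_atTop.mp hev
    obtain ⟨p, hpN, hp⟩ := Nat.exists_infinite_primes (N + n₀ + 1)
    have h1 := h0 (p - 1) (by omega) (by rwa [Nat.sub_add_cancel hp.one_le])
    have h2 := hN (p - 1) (by omega)
    linarith
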