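import Pool.Agent.Lib.MP_9df71a_co.GMain
import Pool.Agent.Lib.MP_9df71a_co.GUpper

open Filter Topology N0a8789b9 Pool.Agent.MP9df71a

/-- Hierarchical decompositions (`CutAdmissible`, threshold `IsCutCutoff`) are cube decompositions,
their thresholds `c n` exist, and the quotient `log c(n) / (n log n)` has lower limit `0`, is at
least `1 / 64` whenever `n + 1` is a large prime, and so has no limit. -/
theorem Pool.Agent.Results.MP_9df71a_co.Guillotine.result :
    (∀ n k : ℕ, CutAdmissible n k → Admissible n k) ∧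
    (∀ n : ℕ, 0 < n → ∃ c, IsCutCutoff n c) ∧
    ∀ c : ℕ → ℕ, (∀ n, 0 < n → IsCutCutoff n (c n)) →
      (∀ ε : ℝ, 0 < ε → ∃ᶠ n : ℕ in atTop, Real.log (c n) / (n * Real.log n) ≤ ε) ∧
      liminf (fun n : ℕ => Real.log (c n) / (n * Real.log n)) atTop = 0 ∧
      (∃ n₀ : ℕ, ∀ n : ℕ, n₀ ≤ n → (n + 1).Prime →
        1 / 64 ≤ Real.log (c n) / (n * Real.log n)) ∧
      ¬ ∃ γ : ℝ, Tendsto (fun n : ℕ => Real.log (c n) / (n * Real.log n)) atTop (𝓝 γ) := by
  refine ⟨fun n k h => h.admissible, exists_cutCutoff, fun c hc => ?_⟩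
  have hnn : ∀ n : ℕ, 0 ≤ Real.log (c n) / (n * Real.log n) := fun n =>
    div_nonneg (Real.log_natCast_nonneg _)
      (mul_nonneg (Nat.cast_nonneg _) (Real.log_natCast_nonneg _))
  have hfreq : ∀ ε : ℝ, 0 < ε → ∃ᶠ n : ℕ in atTop,
      Real.log (c n) / (n * Real.log n) ≤ ε := by
    intro ε hε
    rw [frequently_atTop]
    intro N
    obtain ⟨n, hn, h⟩ := exists_small_cutCutoff hε (N + 1)
    refine ⟨n, by omega, ?_⟩
    have hn1 : (1 : ℝ) < n := by exact_mod_cast (by omega : 1 < n)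
    have hpos : 0 < (n : ℝ) * Real.log n := mul_pos (by linarith) (Real.log_pos hn1)
    rw [div_le_iff₀ hpos]
    exact h (c n) (hc n (by omega))
  have hbdd : IsBoundedUnder (· ≥ ·) atTop (fun n : ℕ => Real.log (c n) / (n * Real.log n)) :=
    ⟨0, by rw [eventually_map]; exact Eventually.of_forall hnn⟩
  have hlim : liminf (fun n : ℕ => Real.log (c n) / (n * Real.log n)) atTop = 0 := by
    apply le_antisymm
    · apply le_of_forall_pos_le_add
      intro ε hε
      rw [zero_add]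
      exact liminf_le_of_frequently_le (hfreq ε hε) hbdd
    · exact le_liminf_of_le (IsCoboundedUnder.of_frequently_le (hfreq 1 one_pos))
        (Eventually.of_forall hnn)
  have hlow : ∃ n₀ : ℕ, ∀ n : ℕ, n₀ ≤ n → (n + 1).Prime →
      1 / 64 ≤ Real.log (c n) / (n * Real.log n) := by
    obtain ⟨n₀, h0⟩ := cut_lower
    refine ⟨n₀ + 100, fun n hn hp => ?_⟩
    have hn100 : (100 : ℝ) ≤ n := by exact_mod_cast (by omega : 100 ≤ n)
    have hn0 : (0 : ℝ) < n := by linarith
    have hpos : 0 < (n : ℝ) * Real.log n := mul_pos hn0 (Real.log_pos (by linarith))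
    have hcn := hc n (by omega)
    -- one of `c n`, `c n + 1` is not `1` modulo `n + 1`
    have h1 : (n : ℝ) ^ ((n : ℝ) / 32) ≤ (c n : ℝ) + 1 := by
      by_cases hmod : c n ≡ 1 [MOD n + 1]
      · have h2 : ¬ c n + 1 ≡ 1 [MOD n + 1] := by
          intro h3
          have h4 : c n + 1 ≡ 1 + 1 [MOD n + 1] := Nat.ModEq.add_right 1 hmod
          have h5 := h3.symm.trans h4
          have h6 : (1 : ℕ) % (n + 1) = (1 + 1) % (n + 1) := h5
          rw [Nat.mod_eq_of_lt (by omega), Nat.mod_eq_of_lt (by omega)] at h6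
          omega
        have h3 := h0 n (by omega) hp (c n + 1) (hcn.1 _ (by omega)) h2
        push_cast at h3
        exact h3
      · have h3 := h0 n (by omega) hp (c n) (hcn.1 _ le_rfl) hmod
        linarith
    have h2 : (n : ℝ) ^ ((n : ℝ) / 64) ≤ c n := by
      have h3 : (n : ℝ) ^ ((n : ℝ) / 32) = (n : ℝ) ^ ((n : ℝ) / 64) * (n : ℝ) ^ ((n : ℝ) / 64) := by
        rw [← Real.rpow_add hn0]
        congr 1
        ring
      have h4 : 2 ≤ (n : ℝ) ^ ((n : ℝ) / 64) := by
        calc (2 : ℝ) ≤ (n : ℝ) ^ (1 : ℝ) := by rw [Real.rpow_one]; linarith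
          _ ≤ (n : ℝ) ^ ((n : ℝ) / 64) := by
              apply Real.rpow_le_rpow_of_exponent_le (by linarith)
              linarith
      nlinarith
    rw [le_div_iff₀ hpos]
    have h3 := Real.log_le_log (by positivity) h2
    rw [Real.log_rpow hn0] at h3
    linarith
  refine ⟨hfreq, hlim, hlow, ?_⟩
  rintro ⟨γ, hγ⟩
  have hγ0 : γ = 0 := by rw [← hγ.liminf_eq, hlim]
  obtain ⟨n₀, h0⟩ := hlow
  have hev := (tendsto_order.mp hγ).2 (1 / 64) (by rw [hγ0]; norm_num)
  obtain ⟨N, hN⟩ := eventually_atTop.mp hev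
  obtain ⟨p, hpN, hp⟩ := Nat.exists_infinite_primes (N + n₀ + 1)
  have h1 := h0 (p - 1) (by omega) (by rwa [Nat.sub_add_cancel hp.one_le])
  have h2 := hN (p - 1) (by omega)
  linarith
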