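import Pool.Agent.Lib.MP_9df71a_co.Main

open Filter Topology N0a8789b9

/-- The lower limit of `log c(n) / (n log n)` is zero: for every `ε > 0` there are infinitely many
`n` with `c(n) ≤ n ^ (ε n)`. In particular the limit, if it exists, is zero. -/
theorem Pool.Agent.Results.MP_9df71a_co.LiminfZero.result (c : ℕ → ℕ)
    (hc : ∀ n, 0 < n → IsCutoff n (c n)) :
    (∀ ε : ℝ, 0 < ε → ∃ᶠ n : ℕ in atTop, (c n : ℝ) ≤ (n : ℝ) ^ (ε * n)) ∧
    liminf (fun n : ℕ => Real.log (c n) / (n * Real.log n)) atTop = 0 ∧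
    ∀ γ : ℝ, Tendsto (fun n : ℕ => Real.log (c n) / (n * Real.log n)) atTop (𝓝 γ) → γ = 0 := by
  have hnn : ∀ n : ℕ, 0 ≤ Real.log (c n) / (n * Real.log n) := fun n =>
    div_nonneg (Real.log_natCast_nonneg _)
      (mul_nonneg (Nat.cast_nonneg _) (Real.log_natCast_nonneg _))
  have hfreq0 : ∀ ε : ℝ, 0 < ε → ∀ N : ℕ, ∃ n : ℕ, N < n ∧ 1 < n ∧
      Real.log (c n) ≤ ε * (n * Real.log n) := by
    intro ε hε N
    obtain ⟨n, hn, h⟩ := Pool.Agent.MP9df71a.exists_small_cutoff hε (N + 1)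
    exact ⟨n, by omega, by omega, h (c n) (hc n (by omega))⟩
  have hfreq : ∀ ε : ℝ, 0 < ε → ∃ᶠ n : ℕ in atTop,
      Real.log (c n) / (n * Real.log n) ≤ ε := by
    intro ε hε
    rw [frequently_atTop]
    intro N
    obtain ⟨n, hn, hn1, h⟩ := hfreq0 ε hε N
    refine ⟨n, hn.le, ?_⟩
    have hn1 : (1 : ℝ) < n := by exact_mod_cast hn1
    have hpos : 0 < (n : ℝ) * Real.log n := mul_pos (by linarith) (Real.log_pos hn1)
    rw [div_le_iff₀ hpos]
    exact h
  have hbdd : IsBoundedUnder (· ≥ ·) atTop (fun n : ℕ => Real.log (c n) / (n * Real.log n)) :=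
    ⟨0, by rw [eventually_map]; exact Eventually.of_forall hnn⟩
  have hlim : liminf (fun n : ℕ => Real.log (c n) / (n * Real.log n)) atTop = 0 := by
    apply le_antisymm
    · apply le_of_forall_pos_le_add
      intro ε hε
      rw [zero_add]
      exact liminf_le_of_frequently_le (hfreq ε hε) hbdd
    · exact le_liminf_of_le (IsCoboundedUnder.of_frequently_le (hfreq 1 one_pos))
        (Eventually.of_forall hnn)
  refine ⟨fun ε hε => ?_, hlim, fun γ hγ => ?_⟩
  · rw [frequently_atTop]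
    intro N
    obtain ⟨n, hn, hn1, h⟩ := hfreq0 ε hε N
    refine ⟨n, hn.le, ?_⟩
    have hn0 : (0 : ℝ) < n := by exact_mod_cast (by omega : 0 < n)
    rcases Nat.eq_zero_or_pos (c n) with h0 | h0
    · rw [h0]
      have : (0 : ℝ) ≤ (n : ℝ) ^ (ε * n) := by positivity
      simpa using this
    · have h0' : (0 : ℝ) < c n := by exact_mod_cast h0
      rw [← Real.log_le_log_iff h0' (by positivity), Real.log_rpow hn0]
      linarith
  · rw [← hγ.liminf_eq, hlim]
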